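import Mathlib

/-!
# No constant rate distribution on the finite subsets of the positive integers

Let `f = α F`. Put `Q I m = E[m ^ (#X - #I); I ⊆ X]`. Summing over the sets between `I` and `X`
gives `α * Q I (m + 1) = Q I m`. Since `m * Q {i} m ≤ Q ∅ m`, we get `m * F {i} ≤ 1` for every `m`,
hence `F {i} = 0`.
-/

set_option autoImplicit false

open scoped ENNReal

namespace Pool.Agent.Results.MP_e3a9f0_pr.OnlyPointMass

/-- the upper probability function `F(x) = Pr(X ⊇ x)` of a distribution on the finite subsets of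
the positive integers -/
noncomputable def upf (P : PMF (Finset ℕ+)) (x : Finset ℕ+) : ℝ≥0∞ :=
  P.toOuterMeasure {y | x ⊆ y}

/-- the distribution satisfies `f(x) = α F(x)` for all `x` (no condition on the support) -/
def ConstantRate (P : PMF (Finset ℕ+)) (α : ℝ) : Prop :=
  ∀ x : Finset ℕ+, (P x).toReal = α * (upf P x).toReal

theorem upf_eq (P : PMF (Finset ℕ+)) (x : Finset ℕ+) :
    upf P x = ∑' y, if x ⊆ y then P y else 0 := by
  unfold upf
  rw [PMF.toOuterMeasure_apply]
  refine tsum_congr fun y => ?_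
  by_cases h : x ⊆ y <;> simp [Set.indicator, h]

/-- summing over the sets `y` with `I ⊆ y ⊆ x` -/
theorem binom (I x : Finset ℕ+) (m : ℕ) (h : I ⊆ x) :
    ((m : ℝ≥0∞) + 1) ^ (x.card - I.card) =
      ∑ y ∈ x.powerset.filter (fun y => I ⊆ y), (m : ℝ≥0∞) ^ (y.card - I.card) := by
  classical
  rw [← Finset.card_sdiff_of_subset h, ← Finset.sum_pow_mul_eq_add_pow]
  refine Finset.sum_bij' (fun y _ => y ∪ I) (fun y _ => y \ I) ?_ ?_ ?_ ?_ ?_
  · intro y hy
    rw [Finset.mem_powerset] at hy
    rw [Finset.mem_filter, Finset.mem_powerset]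
    exact ⟨Finset.union_subset (hy.trans Finset.sdiff_subset) h, Finset.subset_union_right⟩
  · intro y hy
    rw [Finset.mem_filter, Finset.mem_powerset] at hy
    rw [Finset.mem_powerset]
    exact Finset.sdiff_subset_sdiff hy.1 (Finset.Subset.refl _)
  · intro y hy
    rw [Finset.mem_powerset] at hy
    have hd : Disjoint y I := (Finset.subset_sdiff.1 hy).2
    exact Finset.union_sdiff_cancel_right hd
  · intro y hy
    rw [Finset.mem_filter] at hy
    exact Finset.sdiff_union_of_subset hy.2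
  · intro y hy
    rw [Finset.mem_powerset] at hy
    have hd : Disjoint y I := (Finset.subset_sdiff.1 hy).2
    rw [Finset.card_union_of_disjoint hd, Nat.add_sub_cancel, one_pow, mul_one]

/-- `E[m ^ (#X - #I); I ⊆ X]` -/
noncomputable def Q (P : PMF (Finset ℕ+)) (I : Finset ℕ+) (m : ℕ) : ℝ≥0∞ :=
  ∑' x, if I ⊆ x then P x * (m : ℝ≥0∞) ^ (x.card - I.card) else 0

theorem Q_succ (P : PMF (Finset ℕ+)) (I : Finset ℕ+) (m : ℕ) :
    Q P I (m + 1) = ∑' y, if I ⊆ y then (m : ℝ≥0∞) ^ (y.card - I.card) * upf P y else 0 := by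
  classical
  have h1 : ∀ x, (if I ⊆ x then P x * ((m + 1 : ℕ) : ℝ≥0∞) ^ (x.card - I.card) else 0) =
      ∑' y, if I ⊆ y ∧ y ⊆ x then (m : ℝ≥0∞) ^ (y.card - I.card) * P x else 0 := fun x => by
    rw [tsum_eq_sum (s := x.powerset.filter (fun y => I ⊆ y))]
    · by_cases h : I ⊆ x
      · rw [if_pos h, Nat.cast_add, Nat.cast_one, binom I x m h, Finset.mul_sum]
        refine Finset.sum_congr rfl fun y hy => ?_
        rw [Finset.mem_filter, Finset.mem_powerset] at hy
        rw [if_pos ⟨hy.2, hy.1⟩, mul_comm]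
      · rw [if_neg h]
        symm
        refine Finset.sum_eq_zero fun y hy => ?_
        rw [Finset.mem_filter, Finset.mem_powerset] at hy
        exact absurd (hy.2.trans hy.1) h
    · intro y hy
      rw [Finset.mem_filter, Finset.mem_powerset] at hy
      rw [if_neg]
      rintro ⟨h2, h3⟩
      exact hy ⟨h3, h2⟩
  unfold Q
  rw [tsum_congr h1, ENNReal.tsum_comm]
  refine tsum_congr fun y => ?_
  by_cases h : I ⊆ y
  · rw [if_pos h, upf_eq, ← ENNReal.tsum_mul_left]
    refine tsum_congr fun x => ?_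
    by_cases h2 : y ⊆ x
    · rw [if_pos ⟨h, h2⟩, if_pos h2]
    · rw [if_neg (fun h3 => h2 h3.2), if_neg h2, mul_zero]
  · rw [if_neg h]
    simp [h]

/-- a distribution on the finite subsets of the positive integers with `f = α F`, of whatever
support, is the point mass at the empty set (and then `α = 1`); in particular no such distribution
has full support -/
theorem result (P : PMF (Finset ℕ+)) (α : ℝ) (h : ConstantRate P α) :
    P = PMF.pure ∅ ∧ α = 1 := by
  classical
  have hle : ∀ x, upf P x ≤ 1 := fun x => by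
    rw [upf_eq, ← P.tsum_coe]
    refine ENNReal.tsum_le_tsum fun y => ?_
    split_ifs
    · exact le_rfl
    · exact zero_le
  have hfin : ∀ x, upf P x ≠ ∞ := fun x => ne_top_of_le_ne_top ENNReal.one_ne_top (hle x)
  have hF0 : upf P ∅ = 1 := by
    rw [upf_eq, ← P.tsum_coe]
    exact tsum_congr fun y => by simp
  have hα : α = (P ∅).toReal := by
    have := h ∅
    rw [hF0] at this
    simpa using this.symm
  have hα0 : 0 ≤ α := by rw [hα]; exact ENNReal.toReal_nonneg
  set a : ℝ≥0∞ := ENNReal.ofReal α with ha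
  have hf : ∀ x, P x = a * upf P x := fun x => by
    rw [← ENNReal.ofReal_toReal (PMF.apply_ne_top P x), h x, ENNReal.ofReal_mul hα0,
      ENNReal.ofReal_toReal (hfin x)]
  have hrec : ∀ I m, a * Q P I (m + 1) = Q P I m := fun I m => by
    rw [Q_succ, ← ENNReal.tsum_mul_left]
    unfold Q
    refine tsum_congr fun y => ?_
    by_cases hy : I ⊆ y
    · rw [if_pos hy, if_pos hy]
      rw [hf y]
      ring
    · rw [if_neg hy, if_neg hy, mul_zero]
  have hQ1 : ∀ I, Q P I 1 = upf P I := fun I => by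
    rw [upf_eq]
    unfold Q
    exact tsum_congr fun y => by simp
  have hpow : ∀ I m, a ^ m * Q P I (m + 1) = upf P I := fun I m => by
    induction m with
    | zero => simpa using hQ1 I
    | succ m ih => rw [pow_succ, mul_assoc, hrec, ih]
  have hcmp : ∀ (i : ℕ+) (m : ℕ), (m : ℝ≥0∞) * Q P {i} m ≤ Q P ∅ m := fun i m => by
    unfold Q
    rw [← ENNReal.tsum_mul_left]
    refine ENNReal.tsum_le_tsum fun x => ?_
    by_cases hx : {i} ⊆ x
    · rw [if_pos hx, if_pos (Finset.empty_subset x)]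
      have hpos : 1 ≤ x.card := Finset.card_pos.2 ⟨i, by simpa using hx⟩
      have : (m : ℝ≥0∞) * (P x * (m : ℝ≥0∞) ^ (x.card - Finset.card {i})) =
          P x * (m : ℝ≥0∞) ^ (x.card - Finset.card (∅ : Finset ℕ+)) := by
        rw [Finset.card_singleton, Finset.card_empty, Nat.sub_zero]
        calc (m : ℝ≥0∞) * (P x * (m : ℝ≥0∞) ^ (x.card - 1))
            = P x * (m : ℝ≥0∞) ^ (x.card - 1 + 1) := by ring
          _ = _ := by rw [Nat.sub_add_cancel hpos]
      rw [this]
    · rw [if_neg hx, mul_zero]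
      exact zero_le
  have hsing : ∀ i : ℕ+, upf P {i} = 0 := fun i => by
    have hb : ∀ m : ℕ, ((m : ℝ≥0∞) + 1) * upf P {i} ≤ 1 := fun m => by
      calc ((m : ℝ≥0∞) + 1) * upf P {i}
          = a ^ m * (((m + 1 : ℕ) : ℝ≥0∞) * Q P {i} (m + 1)) := by
            rw [← hpow {i} m]; push_cast; ring
        _ ≤ a ^ m * Q P ∅ (m + 1) := mul_le_mul_right (hcmp i (m + 1)) _
        _ = 1 := by rw [hpow ∅ m, hF0]
    by_contra hne
    obtain ⟨m, hm⟩ := ENNReal.exists_nat_mul_gt hne (b := 1) ENNReal.one_ne_top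
    have h1 := hb m
    have h2 : (m : ℝ≥0∞) * upf P {i} ≤ 1 := le_trans (by gcongr; exact le_self_add) h1
    exact absurd h2 (not_le.2 hm)
  have hzero : ∀ x : Finset ℕ+, x ≠ ∅ → P x = 0 := fun x hx => by
    obtain ⟨i, hi⟩ := Finset.nonempty_iff_ne_empty.2 hx
    have h1 : P x ≤ upf P {i} := by
      rw [upf_eq]
      refine le_trans ?_ (ENNReal.le_tsum x)
      rw [if_pos (by simpa using hi)]
    rw [hsing] at h1
    exact le_antisymm h1 zero_le
  have hone : P ∅ = 1 := by
    rw [← P.tsum_coe, tsum_eq_single ∅ hzero]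
  refine ⟨?_, ?_⟩
  · ext x
    rw [PMF.pure_apply]
    by_cases hx : x = ∅
    · rw [if_pos hx, hx, hone]
    · rw [if_neg hx, hzero x hx]
  · rw [hα, hone, ENNReal.toReal_one]

end Pool.Agent.Results.MP_e3a9f0_pr.OnlyPointMass
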